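import Pool.Agent.H39.Newt2.Stmts

/-! # Project NEWTON2, module GEO: summation over truncated coordinates -/

set_option autoImplicit false

namespace Pool.Newt2

/-- product of absolutely convergent series, over `Fin n` -/
theorem GEO_fin : ∀ (n : ℕ) (g : Fin n → ℕ → ℝ) (G : Fin n → ℝ), (∀ j k, 0 ≤ g j k) →
    (∀ j, HasSum (g j) (G j)) → HasSum (fun u : Fin n → ℕ => ∏ j, g j (u j)) (∏ j, G j) := by
  intro n
  induction n with
  | zero =>
    intro g G _ _
    simp only [Finset.univ_eq_empty, Finset.prod_empty]
    exact hasSum_unique (fun _ : Fin 0 → ℕ => (1 : ℝ))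
  | succ n ih =>
    intro g G hg hG
    have h1 := ih (fun j => g j.succ) (fun j => G j.succ) (fun j k => hg _ _) (fun j => hG _)
    have h0 := hG 0
    have hs : Summable fun p : ℕ × (Fin n → ℕ) => g 0 p.1 * ∏ j : Fin n, g j.succ (p.2 j) := by
      apply Summable.mul_of_nonneg h0.summable h1.summable
      · intro k; exact hg 0 k
      · intro u; exact Finset.prod_nonneg fun j _ => hg _ _
    have h2 : HasSum (fun p : ℕ × (Fin n → ℕ) => g 0 p.1 * ∏ j : Fin n, g j.succ (p.2 j))
        (G 0 * ∏ j : Fin n, G j.succ) := h0.mul h1 hs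
    rw [Fin.prod_univ_succ]
    rw [← (Fin.consEquiv (fun _ : Fin (n + 1) => ℕ)).hasSum_iff]
    convert h2 using 1
    funext p
    simp only [Function.comp_apply, Fin.prod_univ_succ, Fin.consEquiv_apply, Fin.cons_zero,
      Fin.cons_succ]

/-- product of absolutely convergent series -/
theorem GEO_prod {σ : Type} [Fintype σ] (g : σ → ℕ → ℝ) (G : σ → ℝ) (hg : ∀ j k, 0 ≤ g j k)
    (hG : ∀ j, HasSum (g j) (G j)) : HasSum (fun u : σ → ℕ => ∏ j, g j (u j)) (∏ j, G j) := by
  classical
  let e := Fintype.equivFin σ
  have h := GEO_fin (Fintype.card σ) (fun j => g (e.symm j)) (fun j => G (e.symm j))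
    (fun j k => hg _ _) (fun j => hG _)
  have h3 : ∏ j, G (e.symm j) = ∏ j, G j := Equiv.prod_comp e.symm G
  rw [h3] at h
  rw [← (Equiv.arrowCongr e.symm (Equiv.refl ℕ)).hasSum_iff]
  convert h using 1
  funext u
  rw [Function.comp_apply, ← Equiv.prod_comp e.symm]
  apply Finset.prod_congr rfl
  intro j _
  simp [Equiv.arrowCongr]

theorem GEO_one {c v : ℕ} (hv : v ≤ c) {X : ℝ} (h0 : 0 < X) (h1 : X < 1) :
    HasSum (fun n : ℕ => if min n c = v then X ^ n else 0)
      (X ^ v * (if c ≤ v then (1 - X)⁻¹ else 1)) := by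
  by_cases h : c ≤ v
  · have hvc : v = c := le_antisymm hv h
    subst hvc
    rw [if_pos le_rfl]
    have h2 : HasSum (fun n : ℕ => X ^ v * X ^ n) (X ^ v * (1 - X)⁻¹) :=
      (hasSum_geometric_of_lt_one h0.le h1).mul_left _
    have h3 : HasSum (fun n : ℕ => (fun n : ℕ => if min n v = v then X ^ n else 0) (n + v))
        (X ^ v * (1 - X)⁻¹) := by
      convert h2 using 1
      funext n
      simp only
      rw [if_pos (by omega), pow_add, mul_comm]
    have h4 := (hasSum_nat_add_iff (f := fun n : ℕ => if min n v = v then X ^ n else 0) v).1 h3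
    have h5 : ∑ n ∈ Finset.range v, (if min n v = v then X ^ n else 0) = 0 := by
      apply Finset.sum_eq_zero
      intro n hn
      rw [Finset.mem_range] at hn
      rw [if_neg (by omega)]
    rw [h5, add_zero] at h4
    exact h4
  · rw [if_neg h, mul_one]
    have h2 := hasSum_ite_eq v (X ^ v)
    convert h2 using 1
    funext n
    by_cases hn : n = v
    · subst hn
      rw [if_pos (by omega), if_pos rfl]
    · rw [if_neg (by omega), if_neg hn]

open Classical in
theorem sGeo : SGeo := by
  intro σ _ c φ hφ X h0 h1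
  have key : HasSum (fun u : σ → ℕ => φ u * X ^ (∑ j, u j))
      (∑ u ∈ Fintype.piFinset fun _ : σ => Finset.range (c + 1),
        φ u * X ^ (∑ j, u j) * ((1 - X)⁻¹) ^ (cpd c u).card) := by
    have hfun : (fun u : σ → ℕ => φ u * X ^ (∑ j, u j)) = fun u : σ → ℕ =>
        ∑ v ∈ Fintype.piFinset fun _ : σ => Finset.range (c + 1),
          φ v * ∏ j, (if min (u j) c = v j then X ^ (u j) else 0) := by
      funext u
      rw [Finset.sum_eq_single (fun j => min (u j) c)]
      · rw [hφ u, ← Finset.prod_pow_eq_pow_sum]
        congr 1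
        apply Finset.prod_congr rfl
        intro j _
        rw [if_pos rfl]
      · intro v _ hv
        have : ∃ j, min (u j) c ≠ v j := by
          by_contra hcon
          push Not at hcon
          exact hv (funext fun j => (hcon j).symm)
        obtain ⟨j, hj⟩ := this
        rw [Finset.prod_eq_zero (Finset.mem_univ j) (if_neg hj), mul_zero]
      · intro hn
        exfalso
        apply hn
        rw [Fintype.mem_piFinset]
        intro j
        rw [Finset.mem_range]
        omega
    rw [hfun]
    apply hasSum_sum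
    intro v hv
    rw [Fintype.mem_piFinset] at hv
    have hP : HasSum (fun u : σ → ℕ => ∏ j, (if min (u j) c = v j then X ^ (u j) else 0))
        (∏ j, (X ^ (v j) * (if c ≤ v j then (1 - X)⁻¹ else 1))) := by
      apply GEO_prod (fun j n => if min n c = v j then X ^ n else 0)
      · intro j k
        split_ifs
        · positivity
        · exact le_rfl
      · intro j
        have := hv j
        rw [Finset.mem_range] at this
        exact GEO_one (by omega) h0 h1
    have hQ := hP.mul_left (φ v)
    have he : φ v * X ^ (∑ j, v j) * ((1 - X)⁻¹) ^ (cpd c v).card =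
        φ v * ∏ j, (X ^ (v j) * (if c ≤ v j then (1 - X)⁻¹ else 1)) := by
      rw [Finset.prod_mul_distrib, Finset.prod_pow_eq_pow_sum, mul_assoc]
      congr 2
      rw [Finset.prod_ite, Finset.prod_const_one, mul_one, Finset.prod_const]
      rfl
    rw [he]
    exact hQ
  exact ⟨key.summable, key.tsum_eq⟩

end Pool.Newt2
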